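import Pool.Agent.helper44.NLT.Spec

set_option autoImplicit false

open Complex Metric Set Filter Topology MeasureTheory MPS
open Pool.Agent.helper98.ILF Pool.Agent.helper16.Multibrot

noncomputable section

namespace NLT

theorem SMC_dif (a : ℕ → ℂ) (h : ∀ s : ℝ, 0 < s → s < 1 → Summable (fun j : ℕ => s ^ j * ‖a j‖)) :
    DifferentiableOn ℂ (cc a) (ball 0 1) := by
  intro t0 ht0
  rw [mem_ball_zero_iff] at ht0
  obtain ⟨s, hs1, hs2⟩ := exists_between ht0
  have hs0 : 0 < s := lt_of_le_of_lt (norm_nonneg _) hs1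
  have hd : DifferentiableOn ℂ (fun t : ℂ => ∑' j : ℕ, t ^ j * a j) (ball 0 s) := by
    apply differentiableOn_tsum_of_summable_norm (h s hs0 hs2)
    · intro j
      fun_prop
    · exact isOpen_ball
    · intro j w hw
      rw [mem_ball_zero_iff] at hw
      rw [norm_mul, norm_pow]
      gcongr
  have hat : DifferentiableAt ℂ (fun t : ℂ => ∑' j : ℕ, t ^ j * a j) t0 :=
    hd.differentiableAt (isOpen_ball.mem_nhds (by rwa [mem_ball_zero_iff]))
  exact hat.differentiableWithinAt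

theorem SMC_zero (a : ℕ → ℂ) : cc a 0 = a 0 := by
  unfold cc
  rw [tsum_eq_single 0]
  · simp
  · intro j hj
    simp [hj]

theorem SMC_der (a : ℕ → ℂ) (h : ∀ s : ℝ, 0 < s → s < 1 → Summable (fun j : ℕ => s ^ j * ‖a j‖)) :
    HasDerivAt (cc a) (a 1) 0 := by
  have hshift : ∀ s : ℝ, 0 < s → s < 1 → Summable (fun j : ℕ => s ^ j * ‖a (j + 1)‖) := by
    intro s hs0 hs1
    have h1 : Summable (fun j : ℕ => s ^ (j + 1) * ‖a (j + 1)‖) :=
      (summable_nat_add_iff (f := fun j : ℕ => s ^ j * ‖a j‖) 1).2 (h s hs0 hs1)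
    have h2 := h1.mul_left s⁻¹
    refine h2.congr ?_
    intro j
    rw [pow_succ]
    field_simp
  have hd := SMC_dif (fun j => a (j + 1)) hshift
  have hd0 : DifferentiableAt ℂ (cc (fun j => a (j + 1))) 0 :=
    hd.differentiableAt (isOpen_ball.mem_nhds (by simp))
  have hprod : HasDerivAt (fun t : ℂ => a 0 + t * cc (fun j => a (j + 1)) t) (a 1) 0 := by
    have h3 := ((hasDerivAt_id (0 : ℂ)).mul hd0.hasDerivAt).const_add (a 0)
    have h4 : (1 : ℂ) * cc (fun j => a (j + 1)) 0 + id 0 * deriv (cc (fun j => a (j + 1))) 0 = a 1 := by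
      rw [SMC_zero]
      simp
    rw [h4] at h3
    exact h3
  refine hprod.congr_of_eventuallyEq ?_
  filter_upwards [isOpen_ball.mem_nhds (show (0 : ℂ) ∈ ball (0 : ℂ) 1 by simp)] with t ht
  rw [mem_ball_zero_iff] at ht
  obtain ⟨s, hs1, hs2⟩ := exists_between ht
  have hs0 : 0 < s := lt_of_le_of_lt (norm_nonneg _) hs1
  have hsum : Summable (fun j : ℕ => t ^ j * a j) := by
    refine Summable.of_norm_bounded (h s hs0 hs2) ?_
    intro j
    rw [norm_mul, norm_pow]
    gcongr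
  unfold cc
  rw [hsum.tsum_eq_zero_add, ← tsum_mul_left]
  simp only [pow_zero, one_mul]
  congr 1
  apply tsum_congr
  intro j
  ring

theorem SMC (hSMA : SMA_stmt) (hSMB : SMB_stmt) : SMC_stmt := by
  intro n c ψ a M hS
  have hpre : ∀ z ∉ filled n c, z ^ n + c ∉ filled n c := by
    intro z hz hz'
    apply hz
    rw [← preimage_filled hS.hn c]
    exact hz'
  have hterm : ∀ z ∉ filled n c, ∀ (t : ℂ) (j : ℕ),
      t ^ j * ψ j (z ^ n + c) = t ^ j * NLS.Pc (fun i => ψ i z) n j + t ^ j * a j := by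
    intro z hz t j
    rw [hS.feq j z hz]
    ring
  have hex : ∃ z : ℂ, z ∉ filled n c := by
    refine ⟨((5 + ‖c‖ : ℝ) : ℂ), fun hz => ?_⟩
    have h1 := filled_subset n c hz
    have hc := norm_nonneg c
    rw [mem_closedBall_zero_iff, Complex.norm_real, Real.norm_of_nonneg (by linarith)] at h1
    linarith
  have hsum : ∀ t ∈ ball (0 : ℂ) 1, Summable (fun j => ‖t ^ j * a j‖) := by
    intro t ht
    obtain ⟨z, hz⟩ := hex
    have h1 := (hSMA n c ψ a M hS t ht).1 (z ^ n + c) (hpre z hz)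
    have h2 := (hSMB (fun i => ψ i z) t ((hSMA n c ψ a M hS t ht).1 z hz) n).1
    refine (h1.add h2).of_nonneg_of_le (fun j => norm_nonneg _) ?_
    intro j
    have h3 : t ^ j * a j = t ^ j * ψ j (z ^ n + c) - t ^ j * NLS.Pc (fun i => ψ i z) n j := by
      rw [hterm z hz t j]
      ring
    rw [h3]
    exact norm_sub_le _ _
  have hs : ∀ s : ℝ, 0 < s → s < 1 → Summable (fun j : ℕ => s ^ j * ‖a j‖) := by
    intro s hs0 hs1
    have h1 := hsum (s : ℂ) (by rw [mem_ball_zero_iff, Complex.norm_real, Real.norm_of_nonneg hs0.le]; exact hs1)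
    refine h1.congr ?_
    intro j
    rw [norm_mul, norm_pow, Complex.norm_real, Real.norm_of_nonneg hs0.le]
  refine ⟨?_, SMC_dif a hs, ?_, SMC_der a hs⟩
  · intro t ht
    refine ⟨hsum t ht, ?_⟩
    intro z hz
    have h2 := hSMB (fun i => ψ i z) t ((hSMA n c ψ a M hS t ht).1 z hz) n
    unfold Ps cc
    rw [← h2.2, ← (h2.1.of_norm).tsum_add (hsum t ht).of_norm]
    apply tsum_congr
    intro j
    exact hterm z hz t j
  · rw [SMC_zero, hS.a0]

end NLT
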